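import Mathlib
import Pool.Agent.Q223.PG.Facet

/-!
# MP_1e46c9_co: graphs of iterated pyramids are dimensionally ambiguous
-/

set_option autoImplicit false

namespace Pool.Agent.Results.MP_1e46c9_co.IteratedPyramids

open Module

/-- The space `ℝᵏ`. -/
abbrev E (k : ℕ) : Type := Fin k → ℝ

/-- A convex polytope in `ℝᵏ`: the convex hull of a nonempty finite set. -/
def IsPolytope {k : ℕ} (P : Set (E k)) : Prop :=
  ∃ S : Set (E k), S.Finite ∧ S.Nonempty ∧ P = convexHull ℝ S

/-- The dimension of `P`, the dimension of its affine hull. -/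
noncomputable def dim {k : ℕ} (P : Set (E k)) : ℕ := finrank ℝ (vectorSpan ℝ P)

/-- The graph of `P`: the vertices, two of them adjacent when they span an edge. -/
def polyGraph {k : ℕ} (P : Set (E k)) : SimpleGraph (P.extremePoints ℝ) where
  Adj u v := u ≠ v ∧ IsExposed ℝ P (segment ℝ (u : E k) (v : E k))
  symm := ⟨by
    rintro u v ⟨h, h'⟩
    exact ⟨h.symm, by rw [segment_symm]; exact h'⟩⟩
  loopless := ⟨fun u h => h.1 rfl⟩

/-- `G` is `d`-realizable: isomorphic to the graph of a `d`-polytope. -/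
def Realizable (d : ℕ) {V : Type} (G : SimpleGraph V) : Prop :=
  ∃ (k : ℕ) (P : Set (E k)), IsPolytope P ∧ dim P = d ∧ Nonempty (G ≃g polyGraph P)

/-- `G` is dimensionally ambiguous: realizable in two different dimensions. -/
def DimAmbiguous {V : Type} (G : SimpleGraph V) : Prop :=
  ∃ d d' : ℕ, d ≠ d' ∧ Realizable d G ∧ Realizable d' G

/-- The bijection `f` between the vertices of `P` and of `Q` is induced by an isomorphism of the
face lattices: a set of vertices of `P` is the vertex set of a face iff its image is. -/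
def FaceIso {k l : ℕ} (P : Set (E k)) (Q : Set (E l))
    (f : P.extremePoints ℝ ≃ Q.extremePoints ℝ) : Prop :=
  ∀ S : Set (P.extremePoints ℝ),
    IsExposed ℝ P (convexHull ℝ (Subtype.val '' S)) ↔
      IsExposed ℝ Q (convexHull ℝ (Subtype.val '' (f '' S)))

/-- `G` is strongly `d`-ambiguous. -/
def StronglyAmbiguous (d : ℕ) {V : Type} (G : SimpleGraph V) : Prop :=
  ∃ (k l : ℕ) (P : Set (E k)) (Q : Set (E l)), IsPolytope P ∧ IsPolytope Q ∧ dim P = d ∧
    dim Q = d ∧ Nonempty (G ≃g polyGraph P) ∧ Nonempty (G ≃g polyGraph Q) ∧ ¬ ∃ f, FaceIso P Q f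

/-- `G` is weakly `d`-ambiguous. -/
def WeaklyAmbiguous (d : ℕ) {V : Type} (G : SimpleGraph V) : Prop :=
  ∃ (k : ℕ) (P : Set (E k)), IsPolytope P ∧ dim P = d ∧
    ∃ φ ψ : G ≃g polyGraph P, ¬ FaceIso P P (ψ.symm.trans φ).toEquiv

/-- `P` is admissible as basis, in dimension `n`: its graph is dimensionally unambiguous, neither
strongly nor weakly `n`-ambiguous, and no proper subgraph of it is `n`-realizable. -/
def Admissible (n : ℕ) {k : ℕ} (P : Set (E k)) : Prop :=
  IsPolytope P ∧ dim P = n ∧ ¬ DimAmbiguous (polyGraph P) ∧ ¬ StronglyAmbiguous n (polyGraph P) ∧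
    ¬ WeaklyAmbiguous n (polyGraph P) ∧
    ∀ H : (polyGraph P).Subgraph, Realizable n H.coe → H = ⊤

/-- `R` is a pyramid over `P`. -/
def IsPyramid {k : ℕ} (P R : Set (E k)) : Prop :=
  ∃ a, a ∉ affineSpan ℝ P ∧ R = convexHull ℝ (insert a P)

/-- `R` is an `m`-fold pyramid over `P`. -/
def IterPyramid {k : ℕ} (P : Set (E k)) : ℕ → Set (E k) → Prop
  | 0, R => R = P
  | m + 1, R => ∃ R', IterPyramid P m R' ∧ IsPyramid R' R

open Pool.Agent.Q223.PG

section basic

variable {ι : Type} {k : ℕ}

theorem mem_hull [Fintype ι] (V : ι → E k) {y : E k} (hy : y ∈ convexHull ℝ (Set.range V)) :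
    ∃ w : ι → ℝ, (∀ i, 0 ≤ w i) ∧ ∑ i, w i = 1 ∧ ∑ i, w i • V i = y := by
  classical
  have h : convexHull ℝ (Set.range V) ⊆ {y | ∃ w : ι → ℝ, (∀ i, 0 ≤ w i) ∧ ∑ i, w i = 1 ∧
      ∑ i, w i • V i = y} := by
    apply convexHull_min
    · rintro _ ⟨i, rfl⟩
      refine ⟨Pi.single i 1, fun j => ?_, by simp, ?_⟩
      · by_cases hj : j = i
        · subst hj; simp
        · simp [hj]
      · rw [Finset.sum_eq_single i]
        · simp
        · intro j _ hj; simp [hj]
        · intro hi; exact absurd (Finset.mem_univ _) hi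
    · rintro x ⟨w, hw0, hw1, rfl⟩ y ⟨v, hv0, hv1, rfl⟩ a b ha hb hab
      refine ⟨fun i => a * w i + b * v i, fun i => ?_, ?_, ?_⟩
      · exact add_nonneg (mul_nonneg ha (hw0 i)) (mul_nonneg hb (hv0 i))
      · rw [Finset.sum_add_distrib, ← Finset.mul_sum, ← Finset.mul_sum, hw1, hv1]; linarith
      · simp only [add_smul, Finset.sum_add_distrib, mul_smul, Finset.smul_sum]
  exact h hy

/-- the face given by a functional -/
theorem face_eq [Finite ι] (V : ι → E k) (l : E k →ₗ[ℝ] ℝ) (c : ℝ) (hl : ∀ i, l (V i) ≤ c) :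
    {y ∈ convexHull ℝ (Set.range V) | l y = c} = convexHull ℝ (V '' {i | l (V i) = c}) ∧
      ∀ y ∈ convexHull ℝ (Set.range V), l y ≤ c := by
  classical
  cases nonempty_fintype ι
  have hle : ∀ y ∈ convexHull ℝ (Set.range V), l y ≤ c := by
    intro y hy
    have h : convexHull ℝ (Set.range V) ⊆ {y | l y ≤ c} := by
      apply convexHull_min
      · rintro _ ⟨i, rfl⟩; exact hl i
      · exact convex_halfSpace_le l.isLinear c
    exact h hy
  refine ⟨Set.Subset.antisymm ?_ ?_, hle⟩
  · rintro y ⟨hy, hyc⟩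
    obtain ⟨w, hw0, hw1, rfl⟩ := mem_hull V hy
    have hz : ∀ i, w i * (c - l (V i)) = 0 := by
      have h1 : ∑ i, w i * (c - l (V i)) = 0 := by
        have h2 : ∑ i, w i * l (V i) = c := by
          rw [← hyc, map_sum]
          exact Finset.sum_congr rfl fun i _ => by rw [map_smul, smul_eq_mul]
        simp only [mul_sub, Finset.sum_sub_distrib, ← Finset.sum_mul, hw1, h2]
        ring
      intro i
      exact (Finset.sum_eq_zero_iff_of_nonneg fun i _ =>
        mul_nonneg (hw0 i) (sub_nonneg.2 (hl i))).1 h1 i (Finset.mem_univ i)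
    have h3 : ∑ i, w i • V i = ∑ i ∈ Finset.univ.filter (fun i => l (V i) = c), w i • V i := by
      rw [Finset.sum_filter]
      refine Finset.sum_congr rfl fun i _ => ?_
      by_cases hi : l (V i) = c
      · rw [if_pos hi]
      · rw [if_neg hi]
        have : w i = 0 := (mul_eq_zero.1 (hz i)).resolve_right
          (fun h => hi (by linarith))
        rw [this, zero_smul]
    rw [h3]
    refine (convex_convexHull ℝ _).sum_mem (fun i _ => hw0 i) ?_ ?_
    · rw [← hw1, Finset.sum_filter]
      refine Finset.sum_congr rfl fun i _ => ?_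
      by_cases hi : l (V i) = c
      · rw [if_pos hi]
      · rw [if_neg hi]
        exact ((mul_eq_zero.1 (hz i)).resolve_right (fun h => hi (by linarith))).symm
    · intro i hi
      apply subset_convexHull
      exact ⟨i, (Finset.mem_filter.1 hi).2, rfl⟩
  · intro y hy
    refine ⟨convexHull_mono (Set.image_subset_range V _) hy, ?_⟩
    have h : convexHull ℝ (V '' {i | l (V i) = c}) ⊆ {y | l y = c} := by
      apply convexHull_min
      · rintro _ ⟨i, hi, rfl⟩; exact hi
      · exact convex_hyperplane l.isLinear c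
    exact h hy

theorem ext_conf [Finite ι] {V : ι → E k} (hV : Conf V) :
    (convexHull ℝ (Set.range V)).extremePoints ℝ = Set.range V := by
  apply Set.Subset.antisymm extremePoints_convexHull_subset
  rintro _ ⟨i, rfl⟩
  apply exposedPoints_subset_extremePoints
  obtain ⟨l, hl⟩ := hV i
  have hl' : ∀ j, l (V j) ≤ l (V i) := fun j => by
    by_cases h : j = i
    · rw [h]
    · exact (hl j h).le
  obtain ⟨h1, h2⟩ := face_eq V l (l (V i)) hl'
  have h3 : {j | l (V j) = l (V i)} = {i} := by
    ext j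
    constructor
    · intro hj
      by_contra hne
      exact (hl j hne).ne hj
    · rintro rfl; rfl
  rw [h3, Set.image_singleton, convexHull_singleton] at h1
  refine ⟨subset_convexHull ℝ _ ⟨i, rfl⟩, LinearMap.toContinuousLinearMap l, fun y hy => ⟨h2 y hy, ?_⟩⟩
  intro hy'
  have h4 : y ∈ ({V i} : Set (E k)) := by
    rw [← h1]
    exact ⟨hy, le_antisymm (h2 y hy) hy'⟩
  exact h4

/-- exposed faces through functionals -/
theorem exposed_iff [Finite ι] {V : ι → E k} (hV : Conf V) (S : Set ι) (hS : S.Nonempty) :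
    IsExposed ℝ (convexHull ℝ (Set.range V)) (convexHull ℝ (V '' S)) ↔
      ∃ (l : E k →ₗ[ℝ] ℝ) (c : ℝ), (∀ i ∈ S, l (V i) = c) ∧ ∀ i ∉ S, l (V i) < c := by
  constructor
  · intro h
    obtain ⟨i0, hi0⟩ := hS
    obtain ⟨l, hl⟩ := h ⟨V i0, subset_convexHull ℝ _ ⟨i0, hi0, rfl⟩⟩
    have hmem : ∀ i ∈ S, ∀ y ∈ convexHull ℝ (Set.range V), l y ≤ l (V i) := by
      intro i hi
      have : V i ∈ convexHull ℝ (V '' S) := subset_convexHull ℝ _ ⟨i, hi, rfl⟩
      rw [hl] at this
      exact this.2
    have hV' : ∀ j, V j ∈ convexHull ℝ (Set.range V) := fun j => subset_convexHull ℝ _ ⟨j, rfl⟩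
    refine ⟨(l : E k →ₗ[ℝ] ℝ), l (V i0), fun i hi => ?_, fun i hi => ?_⟩
    · exact le_antisymm (hmem i0 hi0 _ (hV' i)) (hmem i hi _ (hV' i0))
    · refine lt_of_le_of_ne (hmem i0 hi0 _ (hV' i)) (fun heq => ?_)
      have heq' : l (V i) = l (V i0) := heq
      have h1 : V i ∈ convexHull ℝ (V '' S) := by
        rw [hl]
        exact ⟨hV' i, fun y hy => by rw [heq']; exact hmem i0 hi0 y hy⟩
      -- `V i` is a vertex, so it lies in `V '' S`
      obtain ⟨g, hg⟩ := hV i
      have h2 : convexHull ℝ (V '' S) ⊆ {y | g y < g (V i)} := by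
        apply convexHull_min
        · rintro _ ⟨j, hj, rfl⟩
          exact hg j (fun hji => hi (hji ▸ hj))
        · exact convex_halfSpace_lt g.isLinear _
      have h3 : g (V i) < g (V i) := h2 h1
      exact lt_irrefl _ h3
  · rintro ⟨l, c, h1, h2⟩ -
    obtain ⟨i0, hi0⟩ := hS
    have hle : ∀ i, l (V i) ≤ c := fun i => by
      by_cases hi : i ∈ S
      · exact (h1 i hi).le
      · exact (h2 i hi).le
    obtain ⟨h3, h4⟩ := face_eq V l c hle
    have h5 : {i | l (V i) = c} = S := by
      ext i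
      constructor
      · intro hi
        by_contra hne
        exact (h2 i hne).ne hi
      · exact h1 i
    rw [h5] at h3
    refine ⟨LinearMap.toContinuousLinearMap l, ?_⟩
    rw [← h3]
    ext y
    constructor
    · rintro ⟨hy, hyc⟩
      refine ⟨hy, fun z hz => ?_⟩
      show l z ≤ l y
      rw [hyc]; exact h4 z hz
    · rintro ⟨hy, hy'⟩
      refine ⟨hy, le_antisymm (h4 y hy) ?_⟩
      rw [← h1 i0 hi0]
      exact hy' _ (subset_convexHull ℝ _ ⟨i0, rfl⟩)

theorem adj_iff [Finite ι] {V : ι → E k} (hV : Conf V) (i j : ι) :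
    IsExposed ℝ (convexHull ℝ (Set.range V)) (segment ℝ (V i) (V j)) ↔
      ∃ l : E k →ₗ[ℝ] ℝ, l (V i) = l (V j) ∧ ∀ m, m ≠ i → m ≠ j → l (V m) < l (V i) := by
  have h := exposed_iff hV {i, j} ⟨i, Or.inl rfl⟩
  rw [Set.image_pair, convexHull_pair] at h
  rw [h]
  constructor
  · rintro ⟨l, c, h1, h2⟩
    refine ⟨l, (h1 i (Or.inl rfl)).trans (h1 j (Or.inr rfl)).symm, fun m hm hm' => ?_⟩
    rw [h1 i (Or.inl rfl)]
    exact h2 m (by rintro (h | h); exacts [hm h, hm' h])
  · rintro ⟨l, h1, h2⟩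
    refine ⟨l, l (V i), ?_, fun m hm => ?_⟩
    · rintro m (rfl | rfl)
      · rfl
      · exact h1.symm
    · exact h2 m (fun h => hm (Or.inl h)) (fun h => hm (Or.inr h))

/-- the vertices of the polytope of a configuration -/
noncomputable def vtx [Finite ι] {V : ι → E k} (hV : Conf V) :
    ι ≃ (convexHull ℝ (Set.range V)).extremePoints ℝ :=
  (Equiv.ofInjective V hV.injective).trans (Equiv.setCongr (ext_conf hV).symm)

theorem vtx_apply [Finite ι] {V : ι → E k} (hV : Conf V) (i : ι) : ((vtx hV i : _) : E k) = V i :=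
  rfl

/-- the graph of the polytope of a configuration -/
noncomputable def grIso [Finite ι] {V : ι → E k} (hV : Conf V) :
    gr V ≃g polyGraph (convexHull ℝ (Set.range V)) where
  toEquiv := vtx hV
  map_rel_iff' := by
    intro i j
    show (vtx hV i ≠ vtx hV j ∧ _) ↔ _
    rw [vtx_apply, vtx_apply, adj_iff hV, (vtx hV).injective.ne_iff]
    rfl

theorem polytope_conf [Finite ι] [Nonempty ι] (V : ι → E k) :
    IsPolytope (convexHull ℝ (Set.range V)) :=
  ⟨Set.range V, Set.finite_range V, Set.range_nonempty V, rfl⟩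

theorem dim_conf (V : ι → E k) : dim (convexHull ℝ (Set.range V)) = dm V := by
  unfold dim dm
  rw [← direction_affineSpan, affineSpan_convexHull, direction_affineSpan]

/-- the configuration of the vertices of a polytope -/
theorem conf_polytope {P : Set (E k)} (hP : IsPolytope P) :
    Finite (P.extremePoints ℝ) ∧ Nonempty (P.extremePoints ℝ) ∧
      Conf (fun v : P.extremePoints ℝ => (v : E k)) ∧
      convexHull ℝ (Set.range (fun v : P.extremePoints ℝ => (v : E k))) = P := by
  obtain ⟨S, hSf, hSn, rfl⟩ := hP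
  have hfin : ((convexHull ℝ S).extremePoints ℝ).Finite :=
    hSf.subset extremePoints_convexHull_subset
  have hhull : convexHull ℝ ((convexHull ℝ S).extremePoints ℝ) = convexHull ℝ S := by
    have h2 := closure_convexHull_extremePoints (hSf.isCompact_convexHull (𝕜 := ℝ))
      (convex_convexHull ℝ S)
    conv_rhs => rw [← h2]
    exact (hfin.isCompact_convexHull (𝕜 := ℝ)).isClosed.closure_eq.symm
  have hr : Set.range (fun v : (convexHull ℝ S).extremePoints ℝ => (v : E k)) =
      (convexHull ℝ S).extremePoints ℝ := Subtype.range_val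
  refine ⟨hfin, ?_, ?_, by rw [hr]; exact hhull⟩
  · have : ((convexHull ℝ S).extremePoints ℝ).Nonempty := by
      by_contra hne
      rw [Set.not_nonempty_iff_eq_empty] at hne
      rw [hne, convexHull_empty] at hhull
      obtain ⟨x, hx⟩ := hSn
      have := subset_convexHull ℝ S hx
      rw [← hhull] at this
      exact this
    exact this.to_subtype
  · intro v
    have hnot : (v : E k) ∉ convexHull ℝ ((convexHull ℝ S).extremePoints ℝ \ {(v : E k)}) := by
      intro hmem
      have h1 : (v : E k) ∈ (convexHull ℝ ((convexHull ℝ S).extremePoints ℝ \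
          {(v : E k)})).extremePoints ℝ := by
        have hsub : convexHull ℝ ((convexHull ℝ S).extremePoints ℝ \ {(v : E k)}) ⊆
            convexHull ℝ S := by
          conv_rhs => rw [← hhull]
          exact convexHull_mono Set.sdiff_subset
        exact inter_extremePoints_subset_extremePoints_of_subset hsub ⟨hmem, v.2⟩
      exact (extremePoints_convexHull_subset h1).2 rfl
    have hcl : IsClosed (convexHull ℝ ((convexHull ℝ S).extremePoints ℝ \ {(v : E k)})) :=
      ((hfin.subset Set.sdiff_subset).isCompact_convexHull (𝕜 := ℝ)).isClosed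
    obtain ⟨f, u, hf1, hf2⟩ := geometric_hahn_banach_closed_point (convex_convexHull ℝ _) hcl hnot
    refine ⟨(f : E k →ₗ[ℝ] ℝ), fun w hw => ?_⟩
    have : (w : E k) ∈ convexHull ℝ ((convexHull ℝ S).extremePoints ℝ \ {(v : E k)}) :=
      subset_convexHull ℝ _ ⟨w.2, fun h => hw (Subtype.ext h)⟩
    exact (hf1 _ this).trans hf2

end basic

section pyramids

variable {k : ℕ}

theorem gr_of_eq {ι : Type} [Finite ι] {V : ι → E k} (hV : Conf V) {P : Set (E k)}
    (h : convexHull ℝ (Set.range V) = P) : Nonempty (gr V ≃g polyGraph P) := by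
  subst h; exact ⟨grIso hV⟩

theorem dim_of_eq {ι : Type} {V : ι → E k} {P : Set (E k)}
    (h : convexHull ℝ (Set.range V) = P) : dm V = dim P := by
  subst h; exact (dim_conf V).symm

theorem span_of_eq {ι : Type} {V : ι → E k} {P : Set (E k)}
    (h : convexHull ℝ (Set.range V) = P) : affineSpan ℝ (Set.range V) = affineSpan ℝ P := by
  subst h; exact (affineSpan_convexHull (Set.range V)).symm

/-- cones over isomorphic graphs -/
def coneIso {α β : Type} {G : SimpleGraph α} {H : SimpleGraph β} (f : G ≃g H) :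
    cone G ≃g cone H where
  toEquiv := Equiv.optionCongr f.toEquiv
  map_rel_iff' := by
    rintro (_ | a) (_ | b)
    · exact Iff.rfl
    · exact Iff.rfl
    · exact Iff.rfl
    · exact f.map_rel_iff'

theorem pyramid_spec {P R : Set (E k)} (hP : IsPolytope P) (hR : IsPyramid P R) :
    IsPolytope R ∧ dim R = dim P + 1 ∧ Nonempty (polyGraph R ≃g cone (polyGraph P)) := by
  obtain ⟨hfin, hne, hV, hhull⟩ := conf_polytope hP
  obtain ⟨a, ha, rfl⟩ := hR
  set V : P.extremePoints ℝ → E k := fun v => (v : E k) with hVdef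
  have hsp := span_of_eq hhull
  rw [← hsp] at ha
  obtain ⟨h, c, hc, hac⟩ := exists_height ha
  have hV' := conf_pyr hV hc hac
  have hg' := gr_pyr hV hc hac
  have hull' : convexHull ℝ (Set.range (pyr V a)) = convexHull ℝ (insert a P) := by
    rw [range_pyr]
    apply Set.Subset.antisymm
    · apply convexHull_mono
      exact Set.insert_subset_insert ((subset_convexHull ℝ _).trans hhull.subset)
    · apply convexHull_min _ (convex_convexHull ℝ _)
      rintro x (rfl | hx)
      · exact subset_convexHull ℝ _ (Or.inl rfl)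
      · exact convexHull_mono (Set.subset_insert _ _) (hhull.symm.subset hx)
  obtain ⟨i1⟩ := gr_of_eq hV' hull'
  obtain ⟨i2⟩ := gr_of_eq hV hhull
  rw [hg'] at i1
  refine ⟨?_, ?_, ⟨i1.symm.trans (coneIso i2)⟩⟩
  · rw [← hull']; exact polytope_conf _
  · rw [← dim_of_eq hull', ← dim_of_eq hhull]
    exact dm_pyr ha

theorem realizable_conf {ι F : Type} [Finite ι] [Nonempty ι] [AddCommGroup F] [Module ℝ F]
    [FiniteDimensional ℝ F] {V : ι → F} (hV : Conf V) : Realizable (dm V) (gr V) := by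
  let e : F ≃ₗ[ℝ] (E (finrank ℝ F)) := LinearEquiv.ofFinrankEq _ _ (by simp)
  have h1 := conf_comp V e.toLinearMap e.injective
  have h2 := gr_comp V e.toLinearMap e.injective
  have h3 := dm_comp V e.toLinearMap e.injective
  refine ⟨finrank ℝ F, convexHull ℝ (Set.range (fun i => e.toLinearMap (V i))),
    polytope_conf _, ?_, ?_⟩
  · rw [dim_conf, h3]
  · rw [← h2]
    exact ⟨grIso (h1.2 hV)⟩

theorem Realizable.congr {d : ℕ} {α β : Type} {G : SimpleGraph α} {H : SimpleGraph β}
    (h : Realizable d H) (f : G ≃g H) : Realizable d G := by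
  obtain ⟨k, P, h1, h2, ⟨g⟩⟩ := h
  exact ⟨k, P, h1, h2, ⟨f.trans g⟩⟩

theorem Realizable.cone {d : ℕ} {α : Type} {G : SimpleGraph α} (h : Realizable d G) :
    Realizable (d + 1) (cone G) := by
  obtain ⟨k, P, hP, rfl, ⟨g⟩⟩ := h
  obtain ⟨hfin, hne, hV, hhull⟩ := conf_polytope hP
  set V : P.extremePoints ℝ → E k := fun v => (v : E k) with hVdef
  obtain ⟨i2⟩ := gr_of_eq hV hhull
  have h0 : dm (fun i => (V i, (0 : ℝ))) = dm V :=
    dm_comp V (LinearMap.inl ℝ (E k) ℝ) LinearMap.inl_injective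
  have h1 : Conf (fun i => (V i, (0 : ℝ))) :=
    (conf_comp V (LinearMap.inl ℝ (E k) ℝ) LinearMap.inl_injective).2 hV
  have h2 : gr (fun i => (V i, (0 : ℝ))) = gr V :=
    gr_comp V (LinearMap.inl ℝ (E k) ℝ) LinearMap.inl_injective
  have hc : ∀ i, (LinearMap.snd ℝ (E k) ℝ) (V i, (0 : ℝ)) = 0 := fun i => rfl
  have ha : (LinearMap.snd ℝ (E k) ℝ) ((0 : E k), (1 : ℝ)) ≠ 0 := by simp
  have h3 := realizable_conf (conf_pyr h1 hc ha)
  rw [gr_pyr h1 hc ha, h2, dm_pyr (notMem_of_height _ 0 hc ha), h0, dim_of_eq hhull] at h3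
  exact h3.congr (coneIso (g.trans i2.symm))

/-- the main construction -/
theorem realizable_dcap {P : Set (E k)} (hP : IsPolytope P) (hd : 3 ≤ dim P) :
    Realizable (dim P + 1) (Pool.Agent.Q223.PG.cone (Pool.Agent.Q223.PG.cone (polyGraph P))) := by
  obtain ⟨hfin, hne, hV, hhull⟩ := conf_polytope hP
  set V : P.extremePoints ℝ → E k := fun v => (v : E k) with hVdef
  obtain ⟨i2⟩ := gr_of_eq hV hhull
  have hd' : 3 ≤ dm V := by rw [dim_of_eq hhull]; exact hd
  obtain ⟨z, hz, hA, hB, hC⟩ := exists_z hV hd'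
  have h3 := realizable_conf (conf_dcap hA hB)
  rw [gr_dcap hA hB hC, dm_dcap hz, dim_of_eq hhull] at h3
  exact h3.congr (coneIso (coneIso i2.symm))

theorem iter_spec {P : Set (E k)} (hP : IsPolytope P) (m : ℕ) :
    ∀ R : Set (E k), IterPyramid P m R → IsPolytope R ∧ dim R = dim P + m := by
  induction m with
  | zero => rintro R rfl; exact ⟨hP, rfl⟩
  | succ m ih =>
    rintro R ⟨R', h1, h2⟩
    obtain ⟨h3, h4⟩ := ih R' h1
    obtain ⟨h5, h6, -⟩ := pyramid_spec h3 h2
    exact ⟨h5, by rw [h6, h4]; ring⟩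

theorem iter_lower {P : Set (E k)} (hP : IsPolytope P) (hd : 3 ≤ dim P) (m : ℕ) :
    ∀ R : Set (E k), IterPyramid P (m + 2) R → Realizable (dim P + m + 1) (polyGraph R) := by
  induction m with
  | zero =>
    rintro R ⟨R1, ⟨R0, rfl, h1⟩, h2⟩
    obtain ⟨h3, -, ⟨i1⟩⟩ := pyramid_spec hP h1
    obtain ⟨-, -, ⟨i2⟩⟩ := pyramid_spec h3 h2
    exact (realizable_dcap hP hd).congr (i2.trans (coneIso i1))
  | succ m ih =>
    rintro R ⟨R', h1, h2⟩
    have h3 := ih R' h1
    obtain ⟨-, -, ⟨i⟩⟩ := pyramid_spec (iter_spec hP _ R' h1).1 h2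
    have h4 := h3.cone.congr i
    have h5 : dim P + m + 1 + 1 = dim P + (m + 1) + 1 := by ring
    rw [h5] at h4
    exact h4

end pyramids

section simplices

variable {k : ℕ}

/-- prescribed values on an affinely independent family -/
theorem exists_functional {ι : Type} {V : ι → E k} (hA : AffineIndependent ℝ V) (S : Set ι)
    (i0 : ι) (hi0 : i0 ∈ S) :
    ∃ (l : E k →ₗ[ℝ] ℝ) (c : ℝ), (∀ i ∈ S, l (V i) = c) ∧ ∀ i ∉ S, l (V i) < c := by
  classical
  have hli := (affineIndependent_iff_linearIndependent_vsub ℝ V i0).1 hA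
  let b := Basis.span hli
  let f0 := b.constr ℝ (fun i : {x // x ≠ i0} => if (i : ι) ∈ S then (0 : ℝ) else -1)
  obtain ⟨f, hf⟩ := LinearMap.exists_extend f0
  have hval : ∀ i : {x // x ≠ i0}, f (V i - V i0) = if (i : ι) ∈ S then (0 : ℝ) else -1 := by
    intro i
    have h1 : (b i : E k) = V i - V i0 := by
      rw [Basis.span_apply]; rfl
    have h2 : f0 (b i) = if (i : ι) ∈ S then (0 : ℝ) else -1 := Basis.constr_basis _ _ _ _
    rw [← h2, ← hf, ← h1]
    rfl
  refine ⟨f, f (V i0), fun i hi => ?_, fun i hi => ?_⟩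
  · by_cases h : i = i0
    · rw [h]
    · have := hval ⟨i, h⟩
      rw [if_pos hi, map_sub] at this
      linarith
  · have h : i ≠ i0 := fun h => hi (h ▸ hi0)
    have := hval ⟨i, h⟩
    rw [if_neg hi, map_sub] at this
    linarith

/-- all sets of vertices of a simplex span faces -/
theorem simplex_exposed {P : Set (E k)} (hP : IsPolytope P)
    (hA : AffineIndependent ℝ (fun v : P.extremePoints ℝ => (v : E k)))
    (S : Set (P.extremePoints ℝ)) : IsExposed ℝ P (convexHull ℝ (Subtype.val '' S)) := by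
  obtain ⟨hfin, hne, hV, hhull⟩ := conf_polytope hP
  rcases S.eq_empty_or_nonempty with rfl | ⟨i0, hi0⟩
  · intro h
    rw [Set.image_empty, convexHull_empty] at h
    exact absurd h Set.not_nonempty_empty
  · have h := (exposed_iff hV S ⟨i0, hi0⟩).2 (exists_functional hA S i0 hi0)
    rwa [hhull] at h

/-- dimension and number of vertices -/
theorem dim_le {P : Set (E k)} (hP : IsPolytope P) :
    dim P + 1 ≤ Nat.card (P.extremePoints ℝ) ∧
      (dim P + 1 = Nat.card (P.extremePoints ℝ) ↔
        AffineIndependent ℝ (fun v : P.extremePoints ℝ => (v : E k))) := by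
  obtain ⟨hfin, hne, hV, hhull⟩ := conf_polytope hP
  cases nonempty_fintype (P.extremePoints ℝ)
  have hc : Fintype.card (P.extremePoints ℝ) = (Fintype.card (P.extremePoints ℝ) - 1) + 1 := by
    have := Fintype.card_pos (α := P.extremePoints ℝ)
    omega
  have h1 := finrank_vectorSpan_range_le ℝ (fun v : P.extremePoints ℝ => (v : E k)) hc
  have h2 := affineIndependent_iff_finrank_vectorSpan_eq ℝ (fun v : P.extremePoints ℝ => (v : E k)) hc
  have h3 : finrank ℝ (vectorSpan ℝ (Set.range (fun v : P.extremePoints ℝ => (v : E k)))) = dim P :=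
    dim_of_eq hhull
  rw [h3] at h1 h2
  rw [Nat.card_eq_fintype_card, h2]
  omega

/-- a polytope with at most five vertices and a complete graph is a simplex (Radon) -/
theorem affineIndependent_of_complete {P : Set (E k)} (hP : IsPolytope P)
    (hc : ∀ u v, u ≠ v → (polyGraph P).Adj u v) (h5 : Nat.card (P.extremePoints ℝ) ≤ 5) :
    AffineIndependent ℝ (fun v : P.extremePoints ℝ => (v : E k)) := by
  obtain ⟨hfin, hne, hV, hhull⟩ := conf_polytope hP
  set V : P.extremePoints ℝ → E k := fun v => (v : E k) with hVdef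
  by_contra hcon
  obtain ⟨I, hI⟩ := Convex.radon_partition hcon
  -- a small part
  have key : ∀ I : Set (P.extremePoints ℝ), I.ncard ≤ 2 →
      ¬ (convexHull ℝ (V '' I) ∩ convexHull ℝ (V '' Iᶜ)).Nonempty := by
    intro I hI2 ⟨x, hx1, hx2⟩
    have hfun : ∃ (l : E k →ₗ[ℝ] ℝ) (c : ℝ), (∀ i ∈ I, l (V i) = c) ∧ ∀ i ∉ I, l (V i) < c := by
      have hIne : I.Nonempty := by
        rw [Set.nonempty_iff_ne_empty]
        rintro rfl
        rw [Set.image_empty, convexHull_empty] at hx1
        exact hx1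
      have h0 : 0 < I.ncard := (Set.ncard_pos (Set.toFinite I)).2 hIne
      rcases (by omega : I.ncard = 1 ∨ I.ncard = 2) with h1 | h2
      · obtain ⟨i, rfl⟩ := Set.ncard_eq_one.1 h1
        obtain ⟨l, hl⟩ := hV i
        exact ⟨l, l (V i), fun j hj => by rw [hj], fun j hj => hl j hj⟩
      · obtain ⟨i, j, hij, rfl⟩ := Set.ncard_eq_two.1 h2
        have hadj := hc i j hij
        have h3 : IsExposed ℝ (convexHull ℝ (Set.range V)) (segment ℝ (V i) (V j)) := by
          rw [hhull]; exact hadj.2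
        obtain ⟨l, hl1, hl2⟩ := (adj_iff hV i j).1 h3
        refine ⟨l, l (V i), ?_, fun m hm => ?_⟩
        · rintro m (rfl | rfl)
          · rfl
          · exact hl1.symm
        · exact hl2 m (fun h => hm (Or.inl h)) (fun h => hm (Or.inr h))
    obtain ⟨l, c, hl1, hl2⟩ := hfun
    have h1 : convexHull ℝ (V '' I) ⊆ {y | l y = c} := by
      apply convexHull_min
      · rintro _ ⟨i, hi, rfl⟩; exact hl1 i hi
      · exact convex_hyperplane l.isLinear c
    have h2 : convexHull ℝ (V '' Iᶜ) ⊆ {y | l y < c} := by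
      apply convexHull_min
      · rintro _ ⟨i, hi, rfl⟩; exact hl2 i hi
      · exact convex_halfSpace_lt l.isLinear c
    have h3 : l x = c := h1 hx1
    have h4 : l x < c := h2 hx2
    exact h4.ne h3
  have hsum : I.ncard + Iᶜ.ncard = Nat.card (P.extremePoints ℝ) :=
    Set.ncard_add_ncard_compl I
  by_cases h : I.ncard ≤ 2
  · exact key I h hI
  · have h' : Iᶜ.ncard ≤ 2 := by omega
    apply key Iᶜ h'
    rw [compl_compl, Set.inter_comm]
    exact hI

/-- a simplex of dimension at most `4` is admissible -/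
theorem admissible_simplex {P : Set (E k)} (hP : IsPolytope P) {n : ℕ} (hd : dim P = n)
    (hcard : Nat.card (P.extremePoints ℝ) = n + 1) (hn : n ≤ 4) : Admissible n P := by
  have hA := (dim_le hP).2.1 (by rw [hcard, hd])
  have hcompl : ∀ u v, u ≠ v → (polyGraph P).Adj u v := by
    intro u v huv
    refine ⟨huv, ?_⟩
    have h := simplex_exposed hP hA {u, v}
    rw [Set.image_pair, convexHull_pair] at h
    exact h
  -- polytopes with the same graph are simplices
  have hsame : ∀ {l : ℕ} (Q : Set (E l)), IsPolytope Q → Nonempty (polyGraph P ≃g polyGraph Q) →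
      AffineIndependent ℝ (fun v : Q.extremePoints ℝ => (v : E l)) ∧
        Nat.card (Q.extremePoints ℝ) = n + 1 := by
    rintro l Q hQ ⟨f⟩
    have hcQ : Nat.card (Q.extremePoints ℝ) = n + 1 := by
      rw [← hcard]; exact (Nat.card_congr f.toEquiv).symm
    refine ⟨affineIndependent_of_complete hQ (fun u v huv => ?_) (by omega), hcQ⟩
    have h1 : f.symm u ≠ f.symm v := fun h => huv (f.symm.injective h)
    have h2 := f.map_rel_iff.2 (hcompl _ _ h1)
    simpa using h2
  refine ⟨hP, hd, ?_, ?_, ?_, ?_⟩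
  · rintro ⟨d, d', hdd, ⟨l, Q, hQ, hQd, hQi⟩, ⟨l', Q', hQ', hQd', hQi'⟩⟩
    obtain ⟨h1, h2⟩ := hsame Q hQ hQi
    obtain ⟨h1', h2'⟩ := hsame Q' hQ' hQi'
    have h3 := (dim_le hQ).2.2 h1
    have h3' := (dim_le hQ').2.2 h1'
    omega
  · rintro ⟨l, l', Q, Q', hQ, hQ', -, -, hQi, hQi', hno⟩
    obtain ⟨h1, h2⟩ := hsame Q hQ hQi
    obtain ⟨h1', h2'⟩ := hsame Q' hQ' hQi'
    apply hno
    obtain ⟨f⟩ := hQi
    obtain ⟨f'⟩ := hQi'
    exact ⟨(f.symm.trans f').toEquiv, fun S =>
      iff_of_true (simplex_exposed hQ h1 S) (simplex_exposed hQ' h1' _)⟩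
  · rintro ⟨l, Q, hQ, -, φ, ψ, hno⟩
    obtain ⟨h1, h2⟩ := hsame Q hQ ⟨φ⟩
    exact hno fun S => iff_of_true (simplex_exposed hQ h1 S) (simplex_exposed hQ h1 _)
  · rintro H ⟨l, Q, hQ, hQd, ⟨f⟩⟩
    obtain ⟨hfin, -, -, -⟩ := conf_polytope hP
    have h1 : Nat.card H.verts = Nat.card (Q.extremePoints ℝ) := Nat.card_congr f.toEquiv
    have h2 := (dim_le hQ).1
    have h3 : Nat.card H.verts ≤ Nat.card (P.extremePoints ℝ) :=
      Nat.card_le_card_of_injective _ Subtype.val_injective
    have h4 : Nat.card (Q.extremePoints ℝ) = n + 1 := by omega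
    have hverts : H.verts = Set.univ := by
      apply Set.eq_of_subset_of_ncard_le (Set.subset_univ _)
      rw [Set.ncard_univ]
      have : H.verts.ncard = Nat.card H.verts := rfl
      omega
    have hAQ := (dim_le hQ).2.1 (by omega)
    ext u v
    · simp [hverts]
    · constructor
      · intro h; exact H.adj_sub h
      · intro h
        have huv : u ≠ v := h.1
        have hu : u ∈ H.verts := by rw [hverts]; trivial
        have hv : v ∈ H.verts := by rw [hverts]; trivial
        have h6 : (polyGraph Q).Adj (f ⟨u, hu⟩) (f ⟨v, hv⟩) := by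
          refine ⟨fun h => huv (congrArg Subtype.val (f.injective h)), ?_⟩
          have h7 := simplex_exposed hQ hAQ {f ⟨u, hu⟩, f ⟨v, hv⟩}
          rw [Set.image_pair, convexHull_pair] at h7
          exact h7
        exact f.map_rel_iff.1 h6

/-- the simplex on `0` and the first `j` unit vectors -/
def T (d j : ℕ) : Set (E d) :=
  convexHull ℝ (insert 0 {x | ∃ i : Fin d, (i : ℕ) < j ∧ x = Pi.single i 1})

theorem T_zero (d : ℕ) : T d 0 = {0} := by
  unfold T
  have : {x : E d | ∃ i : Fin d, (i : ℕ) < 0 ∧ x = Pi.single i 1} = ∅ := by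
    ext x; simp
  rw [this, insert_empty_eq, convexHull_singleton]

theorem T_pyramid {d j : ℕ} (hj : j < d) : IsPyramid (T d j) (T d (j + 1)) := by
  refine ⟨Pi.single ⟨j, hj⟩ 1, ?_, ?_⟩
  · unfold T
    rw [affineSpan_convexHull]
    intro hmem
    have h1 : affineSpan ℝ (insert 0 {x : E d | ∃ i : Fin d, (i : ℕ) < j ∧ x = Pi.single i 1}) ≤
        (LinearMap.ker (LinearMap.proj (R := ℝ) (φ := fun _ : Fin d => ℝ) ⟨j, hj⟩)).toAffineSubspace := by
      rw [affineSpan_le]
      rintro x (rfl | ⟨i, hi, rfl⟩)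
      · simp
      · have : (⟨j, hj⟩ : Fin d) ≠ i := fun h => by
          rw [← h] at hi; exact lt_irrefl _ hi
        show (LinearMap.proj (R := ℝ) (φ := fun _ : Fin d => ℝ) ⟨j, hj⟩) (Pi.single i 1 : E d) = 0
        simp [this]
    have h2 := h1 hmem
    have h3 : (Pi.single (⟨j, hj⟩ : Fin d) (1 : ℝ) : E d) ⟨j, hj⟩ = 0 := h2
    simp at h3
  · unfold T
    apply Set.Subset.antisymm
    · apply convexHull_min _ (convex_convexHull ℝ _)
      rintro x (rfl | ⟨i, hi, rfl⟩)
      · exact subset_convexHull ℝ _ (Or.inr (subset_convexHull ℝ _ (Or.inl rfl)))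
      · rcases Nat.lt_succ_iff_lt_or_eq.1 hi with h | h
        · exact subset_convexHull ℝ _ (Or.inr (subset_convexHull ℝ _ (Or.inr ⟨i, h, rfl⟩)))
        · apply subset_convexHull
          left
          have : i = ⟨j, hj⟩ := Fin.ext h
          rw [this]
    · apply convexHull_min _ (convex_convexHull ℝ _)
      rintro x (rfl | hx)
      · exact subset_convexHull ℝ _ (Or.inr ⟨⟨j, hj⟩, Nat.lt_succ_self j, rfl⟩)
      · apply convexHull_mono _ hx
        apply Set.insert_subset_insert
        rintro y ⟨i, hi, rfl⟩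
        exact ⟨i, hi.trans (Nat.lt_succ_self j), rfl⟩

theorem T_spec (d : ℕ) : ∀ j ≤ d, IsPolytope (T d j) ∧ dim (T d j) = j ∧
    Nat.card ((T d j).extremePoints ℝ) = j + 1 := by
  intro j
  induction j with
  | zero =>
    intro _
    rw [T_zero]
    refine ⟨⟨{0}, Set.finite_singleton _, Set.singleton_nonempty _, (convexHull_singleton _).symm⟩,
      ?_, ?_⟩
    · unfold dim
      rw [vectorSpan_singleton]; simp
    · have : ({0} : Set (E d)).extremePoints ℝ = {0} := by simp
      rw [this]; simp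
  | succ j ih =>
    intro hj
    obtain ⟨h1, h2, h3⟩ := ih (by omega)
    obtain ⟨h4, h5, ⟨f⟩⟩ := pyramid_spec h1 (T_pyramid (d := d) (j := j) (by omega))
    refine ⟨h4, by rw [h5, h2], ?_⟩
    have hfin := (conf_polytope h1).1
    rw [Nat.card_congr f.toEquiv, Finite.card_option, h3]

theorem T_iter (d : ℕ) (m : ℕ) : ∀ j, j + m ≤ d → IterPyramid (T d j) m (T d (j + m)) := by
  induction m with
  | zero => intro j _; rfl
  | succ m ih =>
    intro j hj
    exact ⟨T d (j + m), ih j (by omega), T_pyramid (by omega)⟩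

end simplices

/-- **Graphs of iterated pyramids are dimensionally ambiguous.** For every `n ≥ 3` and every
`n`-polytope `P` whatsoever, and every `m ≥ 2`, the graph of an `m`-fold pyramid `R` over `P` (a
polytope of dimension `d = n + m`) is also the graph of a polytope of dimension `d - 1`. Moreover
admissible bases exist: for every `d ≥ 5` there is an admissible `3`-polytope in `ℝᵈ` with a
`(d - 3)`-fold pyramid over it. -/
theorem result :
    (∀ (n m : ℕ), 3 ≤ n → 2 ≤ m → ∀ (k : ℕ) (P R : Set (E k)), IsPolytope P → dim P = n →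
      IterPyramid P m R → IsPolytope R ∧ dim R = n + m ∧ Realizable (n + m) (polyGraph R) ∧
        Realizable (n + m - 1) (polyGraph R) ∧ DimAmbiguous (polyGraph R)) ∧
    (∀ d : ℕ, 5 ≤ d → ∃ P R : Set (E d), Admissible 3 P ∧ IterPyramid P (d - 3) R) := by
  constructor
  · rintro n m hn hm k P R hP rfl hR
    obtain ⟨h1, h2⟩ := iter_spec hP m R hR
    obtain ⟨m', rfl⟩ : ∃ m', m = m' + 2 := ⟨m - 2, by omega⟩
    have h3 := iter_lower hP hn m' R hR
    have h4 : dim P + (m' + 2) - 1 = dim P + m' + 1 := by omega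
    have h5 : Realizable (dim P + (m' + 2)) (polyGraph R) :=
      ⟨k, R, h1, h2, ⟨SimpleGraph.Iso.refl⟩⟩
    exact ⟨h1, h2, h5, by rw [h4]; exact h3, _, _, by omega, h5, h3⟩
  · intro d hd
    obtain ⟨h1, h2, h3⟩ := T_spec d 3 (by omega)
    refine ⟨T d 3, T d (3 + (d - 3)), admissible_simplex h1 h2 h3 (by norm_num), ?_⟩
    exact T_iter d (d - 3) 3 (by omega)

end Pool.Agent.Results.MP_1e46c9_co.IteratedPyramids
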